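import Pool.Agent.Helper98.L2.CoordU

/-!
Project L2 (MP_b8862a_ag), type `D`, modules which are not self-dual.
-/

set_option linter.unusedSectionVars false
set_option linter.unusedVariables false

open Module PF TF PW AT LT

namespace L2

variable {E : Type*} [NormedAddCommGroup E] [InnerProductSpace ℝ E] {Φ X : Finset E} {m M d a b c : ℕ} {l y v : E}
  {κ : ℝ}

/-- the coordinates of `l` and `y` -/
theorem core98 {e : Fin (M + 1) → E} (h : DU Φ X a b c l y v) (F : Fr Φ (M + 1) e κ 0) (S : Srt14 (M + 1) 0 e v)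
    (hM : 4 ≤ M) (heM : Even M) :
    ∃ Z T : Fin (M + 1) → ℤ, (∀ i, (inner ℝ l (e i) : ℝ) * (2 / κ) = Z i) ∧
      (∀ i, (inner ℝ y (e i) : ℝ) * (2 * κ) = T i) ∧ Dec14 Z ∧ Dec14 T ∧ (∀ i j, Even (Z i - Z j)) ∧
      (∀ i j, Even (T i - T j)) ∧ Z (Fin.last M) ≠ 0 ∧ ∑ i : Fin M, Z i.castSucc * T i.castSucc = 4 ∧
      (inner ℝ l y : ℝ) * 4 = 4 + ((Z (Fin.last M) * T (Fin.last M) : ℤ) : ℝ) := by
  have hc := F.pos
  have hm : 2 ≤ M + 1 := by omega
  obtain ⟨Z, hZ, hZp⟩ := lint98 (fun r hr => h.sat.int r hr l h.l_mem) F hm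
  obtain ⟨T, hT, hTp⟩ := yint98 h.lev F hm
  obtain ⟨hZd, -⟩ := dec_of14 F S h.dom (by positivity : (0 : ℝ) < 2 / κ) hZ
  obtain ⟨hTd, -⟩ := dec_of14 F S h.ydom (by positivity : (0 : ℝ) < 2 * κ) hT
  have hlsp := h.sat.span l h.l_mem
  obtain ⟨k, hk⟩ := heM
  -- the vector `w_0 l`
  have hle : ∀ i, (inner ℝ l (e i) : ℝ) = κ * (Z i / 2) := by
    intro i
    rw [← hZ i]
    field_simp
  have hye : ∀ i, (inner ℝ y (e i) : ℝ) = T i / (2 * κ) := by
    intro i
    rw [← hT i]
    field_simp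
  have hlast : Z (Fin.last M) ≠ 0 := by
    intro h0
    obtain ⟨z, hz, h1⟩ := flips98 h.rs F h.sat h.l_mem k (by omega)
    have h2 : z = -l := F.eq_of_cx hm (h.sat.span z hz) (Submodule.neg_mem _ hlsp) (fun i => by
      rw [h1 i, cx_neg98]
      by_cases hi : (i : ℕ) < 2 * k
      · rw [if_pos hi]
      · rw [if_neg hi]
        have h3 : i = Fin.last M := Fin.ext (by rw [Fin.val_last]; have := i.2; omega)
        have h4 : cx e κ l i = 0 := by
          unfold cx
          rw [h3, hle, h0]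
          simp
        rw [h4, neg_zero])
    exact h.nsd (h2 ▸ hz)
  -- the scalar product
  have hin : ∀ x ∈ X, (inner ℝ x y : ℝ) = ∑ i : Fin M, inner ℝ x (e i.castSucc) * inner ℝ y (e i.castSucc) +
      inner ℝ x (e (Fin.last M)) * inner ℝ y (e (Fin.last M)) := by
    intro x hx
    rw [F.inner_eq hm (h.sat.span x hx), Fin.sum_univ_castSucc]
  have hflip : ∀ x ∈ X, ∃ x' ∈ X, (∀ i : Fin M, (inner ℝ x' (e i.castSucc) : ℝ) = -inner ℝ x (e i.castSucc)) ∧
      (inner ℝ x' (e (Fin.last M)) : ℝ) = inner ℝ x (e (Fin.last M)) := by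
    intro x hx
    obtain ⟨z, hz, h1⟩ := flips98 h.rs F h.sat hx k (by omega)
    refine ⟨z, hz, fun i => ?_, ?_⟩
    · have h2 := h1 i.castSucc
      rw [if_pos (by rw [Fin.val_castSucc]; have := i.2; omega)] at h2
      unfold cx at h2
      rw [← neg_div, div_left_inj' hc.ne'] at h2
      exact h2
    · have h2 := h1 (Fin.last M)
      rw [if_neg (by rw [Fin.val_last]; omega)] at h2
      unfold cx at h2
      rw [div_left_inj' hc.ne'] at h2
      exact h2
  set S1 : ℝ := ∑ i : Fin M, inner ℝ l (e i.castSucc) * inner ℝ y (e i.castSucc) with hS1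
  set P1 : ℝ := inner ℝ l (e (Fin.last M)) * inner ℝ y (e (Fin.last M)) with hP1
  have hly : (inner ℝ l y : ℝ) = S1 + P1 := hin l h.l_mem
  -- upper bound
  have hup : S1 ≤ 1 := by
    obtain ⟨x, hx, h1, h2⟩ := hflip l h.l_mem
    have h3 := h.ge x hx
    have h4 : ∑ i : Fin M, (inner ℝ x (e i.castSucc) : ℝ) * inner ℝ y (e i.castSucc) = -S1 := by
      rw [hS1, ← Finset.sum_neg_distrib]
      refine Finset.sum_congr rfl fun i _ => ?_
      rw [h1 i]
      ring
    rw [hin x hx, h2, h4, hly] at h3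
    linarith
  -- lower bound
  have hlow : 1 ≤ S1 := by
    obtain ⟨x, hx, h0⟩ := h.low
    obtain ⟨x', hx', h1, h2⟩ := hflip x hx
    have h3 := h.top _ (dom_last98 F S h.ydom) x' hx'
    rw [inner_sub_right, inner_sub_right, inner_smul_right, inner_smul_right, hin x' hx', hly, h2] at h3
    have h4 : ∑ i : Fin M, (inner ℝ x' (e i.castSucc) : ℝ) * inner ℝ y (e i.castSucc) =
        -∑ i : Fin M, (inner ℝ x (e i.castSucc) : ℝ) * inner ℝ y (e i.castSucc) := by
      rw [← Finset.sum_neg_distrib]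
      refine Finset.sum_congr rfl fun i _ => ?_
      rw [h1 i]
      ring
    rw [h4] at h3
    rw [hin x hx, hly] at h0
    have h5 : P1 = inner ℝ l (e (Fin.last M)) * inner ℝ y (e (Fin.last M)) := hP1
    linarith
  have hS : S1 = 1 := le_antisymm hup hlow
  have h6 : ((∑ i : Fin M, Z i.castSucc * T i.castSucc : ℤ) : ℝ) = ((4 : ℤ) : ℝ) := by
    push_cast
    have h7 : ∑ i : Fin M, (Z i.castSucc : ℝ) * T i.castSucc = 4 * S1 := by
      rw [hS1, Finset.mul_sum]
      refine Finset.sum_congr rfl fun i _ => ?_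
      rw [hle, hye]
      field_simp
      norm_num
    rw [h7, hS, mul_one]
  refine ⟨Z, T, hZ, hT, hZd, hTd, hZp, hTp, hlast, by exact_mod_cast h6, ?_⟩
  rw [hly, hS, hP1, hle, hye]
  push_cast
  field_simp
  ring

/-- Weyl's formula in integral coordinates -/
theorem dimZ98 {e : Fin m → E} (h : DU Φ X a b c l y v) (F : Fr Φ m e κ d) (S : Srt14 m d e v) (z : Fin m → ℤ)
    (hz : ∀ i, cx e κ l i = z i) : ((a + b + c : ℕ) : ℤ) * Pd d m 0 = Pd d m z := by
  have hc := F.pos
  obtain ⟨-, -, h1, -⟩ := dim_frR_sorted59 h.toWd'.dimH59 F S.lt S.nn S.pos (k := fun i => (z i : ℝ)) (by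
    intro i
    have := hz i
    unfold cx at this
    rw [div_eq_iff hc.ne'] at this
    rw [this]
    ring)
  have h2 : (((a + b + c : ℕ) * Pd d m 0 : ℤ) : ℝ) = ((Pd d m z : ℤ) : ℝ) := by
    rw [Int.cast_mul, Pd_cast14, Pd_cast14, ← h1]
    congr 2
    funext j
    simp
  exact_mod_cast h2

/-- Weyl's formula in half integral coordinates -/
theorem dimY98 {e : Fin m → E} (h : DU Φ X a b c l y v) (F : Fr Φ m e κ d) (S : Srt14 m d e v) (Z : Fin m → ℤ)
    (hZ : ∀ i, 2 * cx e κ l i = Z i) : ((a + b + c : ℕ) : ℤ) * PX.Py d m 0 = PX.Py d m Z := by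
  have hc := F.pos
  obtain ⟨-, -, h1, -⟩ := dim_frR_sorted59 h.toWd'.dimH59 F S.lt S.nn S.pos (k := fun i => cx e κ l i) (by
    intro i
    unfold cx
    field_simp)
  rw [PX.PdR_eq43 d m hZ, PX.PdR_eq43 d m (x := 0) (y := 0) (by
    intro i
    simp)] at h1
  exact_mod_cast h1

/-- the trace identity -/
theorem idt98 {e : Fin m → E} (h : DU Φ X a b c l y v) (F : Fr Φ m e κ 0) (hm : 2 ≤ m) :
    ((a : ℝ) + b + c) ^ 2 * cas Φ l * inner ℝ y y =
      (((a : ℝ) + b + c) * (a + c) - ((a : ℝ) - c) ^ 2) * (m * (2 * m - 1)) := by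
  have h1 := h.idt
  rw [F.finrank hm, F.card, if_pos rfl] at h1
  rw [h1]
  ring

theorem Py5_98 (Z : Fin 5 → ℤ) (h : Z = ![1, 1, 1, 1, 1] ∨ Z = ![1, 1, 1, 1, -1]) : PX.Py 0 5 Z = 16 * PX.Py 0 5 0 ∧ PX.Py 0 5 0 ≠ 0 := by
  rcases h with rfl | rfl
  · decide +kernel
  · decide +kernel

theorem num98 {q n a : ℕ} (h1 : 2 * n = (2 * (q + 3)).choose (q + 3)) (h2 : n * (q + 3) = 2 * a * (2 * (q + 3) - 1)) :
    a = (2 * q + 3).choose (q + 1) ∧ n = 2 * a + ((2 * q + 3).choose q + (2 * q + 3).choose (q + 2)) := by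
  have e1 : (2 * (q + 3)).choose (q + 3) = (2 * q + 3).choose q + 3 * (2 * q + 3).choose (q + 1) +
      3 * (2 * q + 3).choose (q + 2) + (2 * q + 3).choose (q + 3) := by
    rw [show 2 * (q + 3) = (2 * q + 3) + 1 + 1 + 1 by ring, Nat.choose_succ_succ' _ (q + 2), Nat.choose_succ_succ' _ (q + 1),
      Nat.choose_succ_succ' _ (q + 2), Nat.choose_succ_succ' _ q, Nat.choose_succ_succ' _ (q + 1), Nat.choose_succ_succ' _ (q + 2)]
    ring
  have e2 : (2 * q + 3).choose (q + 2) = (2 * q + 3).choose (q + 1) := Nat.choose_symm_of_eq_add (by ring)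
  have e3 : (2 * q + 3).choose (q + 3) = (2 * q + 3).choose q := Nat.choose_symm_of_eq_add (by ring)
  have e4 := Nat.choose_succ_right_eq (2 * q + 3) q
  rw [show 2 * q + 3 - q = q + 3 by omega] at e4
  rw [e1, e2, e3] at h1
  rw [show 2 * (q + 3) - 1 = 2 * q + 5 by omega] at h2
  rw [e2]
  set A := (2 * q + 3).choose q
  set B := (2 * q + 3).choose (q + 1)
  have h3 : n = A + 3 * B := by omega
  have h4 : a = B := by
    refine Nat.eq_of_mul_eq_mul_right (show 0 < 2 * (2 * q + 5) by omega) ?_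
    have : n * (q + 3) = B * (2 * (2 * q + 5)) := by
      rw [h3]
      nlinarith
    linarith
  refine ⟨h4, ?_⟩
  omega

/-- **Type `D`** -/
theorem typeDU {e : Fin m → E} (h : DU Φ X a b c l y v) (F : Fr Φ m e κ 0) (hm : 4 ≤ m) (hb : a ≠ c ∨ 0 < b) :
    (a = 1 ∧ b = 10 ∧ c = 5) ∨ (a = 5 ∧ b = 10 ∧ c = 1) ∨ (∃ t, 0 < t ∧ a = t ∧ b = 2 * t ∧ c = t) ∨
    (∃ M i, i + 2 ≤ M ∧ M ≠ 2 * i + 2 ∧ a = M.choose (i + 1) ∧ b = M.choose i + M.choose (i + 2) ∧
      c = M.choose (i + 1)) := by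
  rcases Nat.even_or_odd m with he | ho
  · exact (typeDU_even h F (by omega) he).elim
  obtain ⟨e', F', S⟩ := sorted98 h.reg F
  obtain ⟨M, rfl⟩ : ∃ M, m = M + 1 := ⟨m - 1, by omega⟩
  have heM : Even M := by
    obtain ⟨q, hq⟩ := ho
    exact ⟨q, by omega⟩
  have hM : 4 ≤ M := by
    obtain ⟨q, hq⟩ := heM
    omega
  obtain ⟨Z, T, hZ, hT, hZd, hTd, hZp, hTp, hl0, hS, hly⟩ := core98 h F' S hM heM
  have hc := F'.pos
  have hm2 : 2 ≤ M + 1 := by omega
  have hlsp := h.sat.span l h.l_mem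
  have hZx : ∀ i, 2 * cx e' κ l i = Z i := by
    intro i
    rw [← hZ]
    unfold cx
    ring
  have hyy := norm_of14 F' hm2 h.y_mem hT
  have hid := idt98 h F' hm2
  have hlt : ∀ i : Fin M, i.castSucc < Fin.last M := fun i => Fin.castSucc_lt_last i
  have hZ1 : ∀ i : Fin M, 1 ≤ Z i.castSucc := by
    intro i
    have h1 := hZd _ _ (hlt i)
    have h2 := Int.one_le_abs hl0
    omega
  have hT1 : ∀ i : Fin M, 0 ≤ T i.castSucc := by
    intro i
    have h1 := hTd _ _ (hlt i)
    have h2 := abs_nonneg (T (Fin.last M))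
    omega
  have hcs : ∀ {i j : Fin M}, i < j → i.castSucc < j.castSucc := fun hij => Fin.castSucc_lt_castSucc_iff.2 hij
  have hZ2 : ∀ i j : Fin M, i < j → Z j.castSucc ≤ Z i.castSucc := fun i j hij =>
    (le_abs_self _).trans (hZd _ _ (hcs hij))
  have hT2 : ∀ i j : Fin M, i < j → T j.castSucc ≤ T i.castSucc := fun i j hij =>
    (le_abs_self _).trans (hTd _ _ (hcs hij))
  have hZeo := even_or_odd14 Z hZp (by omega)
  have hTeo := even_or_odd14 T hTp (by omega)
  have hcomb := comb98 (Z := fun i => Z i.castSucc) (T := fun i => T i.castSucc) hM hZ1 hZ2 hT1 hT2 hS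
    (by
      rcases hZeo with ⟨t, ht⟩ | h1
      · exact Or.inl fun i => ⟨t i.castSucc, by rw [ht]; ring⟩
      · exact Or.inr fun i => h1 _)
    (by
      rcases hTeo with ⟨t, ht⟩ | h1
      · exact Or.inl fun i => ⟨t i.castSucc, by rw [ht]; ring⟩
      · exact Or.inr fun i => h1 _)
  have hn0 : (0 : ℝ) < (a : ℝ) + b + c := by
    have h1 : (0 : ℝ) < a := by exact_mod_cast h.a_pos
    positivity
  have hmr : (0 : ℝ) < ((M + 1 : ℕ) : ℝ) := by positivity
  have hm1 : (0 : ℝ) < 2 * ((M + 1 : ℕ) : ℝ) - 1 := by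
    have h1 : (1 : ℝ) ≤ ((M + 1 : ℕ) : ℝ) := by exact_mod_cast Nat.succ_le_succ (Nat.zero_le M)
    linarith
  have hdm : (0 : ℝ) < ((M + 1 : ℕ) : ℝ) * (2 * ((M + 1 : ℕ) : ℝ) - 1) := mul_pos hmr hm1
  -- the last coordinate of `y` when the others vanish from the index `2` on
  have hTl : (∀ i : Fin M, 2 ≤ (i : ℕ) → T i.castSucc = 0) → T (Fin.last M) = 0 := by
    intro h0
    have h1 := hTd _ _ (hlt ⟨2, by omega⟩)
    rw [h0 ⟨2, by omega⟩ le_rfl] at h1
    exact abs_eq_zero.1 (le_antisymm h1 (abs_nonneg _))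
  have hly1 : T (Fin.last M) = 0 → a = c := by
    intro h0
    rw [h0, mul_zero, Int.cast_zero, add_zero] at hly
    have h1 : (inner ℝ l y : ℝ) = 1 := by linarith
    have h2 := h.ly
    rw [h1, mul_one] at h2
    have h3 : (a : ℝ) = c := by linarith
    exact_mod_cast h3
  -- `l` half odd
  have hhalf : (∀ i : Fin M, Z i.castSucc = 1) → |Z (Fin.last M)| = 1 ∧
      ((a : ℝ) + b + c) ^ 2 * ((∑ i, T i ^ 2 : ℤ) : ℝ) = 16 * (((a : ℝ) + b + c) * (a + c) - ((a : ℝ) - c) ^ 2) := by
    intro h1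
    have h2 : |Z (Fin.last M)| = 1 := by
      have h3 := hZd _ _ (hlt ⟨0, by omega⟩)
      rw [h1] at h3
      have h4 := Int.one_le_abs hl0
      omega
    refine ⟨h2, ?_⟩
    have hall : ∀ i, |Z i| = 1 := by
      intro i
      refine Fin.lastCases h2 (fun j => ?_) i
      rw [h1 j, abs_one]
    have hcas := cas_half14 F' hm2 hlsp Z hZx hall
    rw [hcas] at hid
    rw [← hyy]
    refine mul_left_cancel₀ hdm.ne' ?_
    push_cast at hid ⊢
    linear_combination 16 * hid
  rcases hcomb with ⟨hz, ht⟩ | ⟨hz, ht⟩ | ⟨hz, ht⟩ | ⟨hM4, hz, ht⟩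
  · -- `l = 2 ω_m`, `y = ω_1`
    right; right; right
    have hT0 : T (Fin.last M) = 0 := hTl fun i hi => by
      have := ht i
      rw [if_neg (by omega)] at this
      exact this
    have hac := hly1 hT0
    have hZe : ∀ i, ∃ z, Z i = 2 * z := by
      rcases hZeo with ⟨t, ht'⟩ | h1
      · exact fun i => ⟨t i, ht' i⟩
      · exfalso
        have h2 := h1 (Fin.castSucc ⟨0, by omega⟩)
        rw [hz ⟨0, by omega⟩] at h2
        exact absurd h2 (by decide)
    choose z hzz using hZe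
    have hzx : ∀ i, cx e' κ l i = z i := by
      intro i
      have h1 := hZx i
      rw [hzz i] at h1
      push_cast at h1
      linarith
    have hz1 : ∀ i, |z i| = 1 := by
      intro i
      refine Fin.lastCases ?_ (fun j => ?_) i
      · have h3 := hZd _ _ (hlt ⟨0, by omega⟩)
        rw [hz ⟨0, by omega⟩, hzz (Fin.last M), abs_mul, abs_two] at h3
        have h4 : z (Fin.last M) ≠ 0 := by
          intro h5
          apply hl0
          rw [hzz, h5, mul_zero]
        have h6 := Int.one_le_abs h4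
        omega
      · have h3 := hz j
        rw [hzz] at h3
        have h4 : z j.castSucc = 1 := by omega
        rw [h4, abs_one]
    have hz2 : ∀ j : Fin (M + 1), |z j| = if (j : ℕ) < M + 1 then 1 else 0 := by
      intro j
      rw [if_pos j.2, hz1]
    have hcas := cas_ones14 F' hm2 hlsp z hzx le_rfl hz2
    have hsq : ∑ i, T i ^ 2 = 4 := by
      rw [Fin.sum_univ_castSucc, hT0, Finset.sum_eq_single (⟨0, by omega⟩ : Fin M)]
      · rw [ht, if_pos rfl]
        norm_num
      · intro j _ hj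
        rw [ht, if_neg fun h => hj (Fin.ext h)]
        norm_num
      · intro h
        exact absurd (Finset.mem_univ _) h
    rw [hsq] at hyy
    rw [hcas, hac] at hid
    have hdim := dimD (n := a + b + c) (le_refl (M + 1)) (by omega) z hz2 (by
      intro j hj
      have h3 : j = Fin.castSucc ⟨j, by omega⟩ := Fin.ext rfl
      have h4 := hz ⟨j, by omega⟩
      rw [hzz] at h4
      rw [h3]
      omega) (dimZ98 h F' S z hzx)
    rw [if_pos rfl] at hdim
    have h5 : ((c : ℝ) + b + c) * ((M + 1 : ℕ) : ℝ) = 2 * c * (2 * ((M + 1 : ℕ) : ℝ) - 1) := by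
      rw [hac] at hn0
      refine mul_left_cancel₀ (mul_pos hn0 hmr).ne' ?_
      push_cast at hid hyy ⊢
      linear_combination hid - ((c : ℝ) + b + c) ^ 2 * ((M + 1 : ℝ) * (M + 1)) / 4 * hyy
    obtain ⟨q, rfl⟩ : ∃ q, M = q + 2 := ⟨M - 2, by omega⟩
    rw [show q + 2 + 1 = q + 3 by ring] at h5 hdim
    have h6 : (a + b + c) * (q + 3) = 2 * a * (2 * (q + 3) - 1) := by
      rw [hac]
      have h7 : (((c + b + c) * (q + 3) : ℕ) : ℝ) = ((2 * c * (2 * (q + 3) - 1) : ℕ) : ℝ) := by
        rw [Nat.cast_mul (2 * c), Nat.cast_sub (by omega)]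
        push_cast at h5 ⊢
        exact h5
      exact_mod_cast h7
    obtain ⟨h8, h9⟩ := num98 hdim h6
    refine ⟨2 * q + 3, q, by omega, by omega, h8, by omega, by omega⟩
  · -- `l` half odd, `y = 2 ω_1`
    exfalso
    obtain ⟨h1, h2⟩ := hhalf hz
    have hT0 : T (Fin.last M) = 0 := hTl fun i hi => by
      have := ht i
      rw [if_neg (by omega)] at this
      exact this
    have hac := hly1 hT0
    have hb' : 0 < b := by
      rcases hb with h3 | h3
      · exact absurd hac h3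
      · exact h3
    have hsq : ∑ i, T i ^ 2 = 16 := by
      rw [Fin.sum_univ_castSucc, hT0, Finset.sum_eq_single (⟨0, by omega⟩ : Fin M)]
      · rw [ht, if_pos rfl]
        norm_num
      · intro j _ hj
        rw [ht, if_neg fun h => hj (Fin.ext h)]
        norm_num
      · intro h
        exact absurd (Finset.mem_univ _) h
    rw [hsq, hac] at h2
    have h3 : (0 : ℝ) < b := by exact_mod_cast hb'
    have h4 : (0 : ℝ) < c := by exact_mod_cast h.c_pos
    push_cast at h2
    nlinarith [mul_pos h3 h4, mul_pos h3 h3]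
  · -- `l` half odd, `y = ω_2`
    right; right; left
    obtain ⟨h1, h2⟩ := hhalf hz
    have hT0 : T (Fin.last M) = 0 := hTl fun i hi => by
      have := ht i
      rw [if_neg (by omega)] at this
      exact this
    have hac := hly1 hT0
    have hsq : ∑ i, T i ^ 2 = 8 := by
      rw [Fin.sum_univ_castSucc, hT0]
      have h5 : ∀ i ∈ (Finset.univ : Finset (Fin M)), T i.castSucc ^ 2 = if (i : ℕ) < 2 then 4 else 0 := by
        intro i _
        rw [ht i]
        split_ifs <;> norm_num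
      rw [Finset.sum_congr rfl h5, ← Finset.sum_filter]
      have h6 : (Finset.univ.filter fun j : Fin M => (j : ℕ) < 2) = {⟨0, by omega⟩, ⟨1, by omega⟩} := by
        ext a
        simp only [Finset.mem_filter, Finset.mem_univ, true_and, Finset.mem_insert, Finset.mem_singleton, Fin.ext_iff]
        omega
      rw [h6, Finset.sum_const, Finset.card_pair (by
        intro h
        rw [Fin.mk.injEq] at h
        omega)]
      norm_num
    rw [hsq, hac] at h2
    rw [hac] at hn0
    push_cast at h2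
    have h3 : (b : ℝ) = 2 * c := by
      have h4 : ((c : ℝ) + b + c) * ((c : ℝ) + b + c) = ((c : ℝ) + b + c) * (4 * c) := by
        nlinarith
      have h5 := mul_left_cancel₀ hn0.ne' h4
      linarith
    have h6 : b = 2 * c := by exact_mod_cast h3
    exact ⟨c, h.c_pos, hac, h6, rfl⟩
  · -- both half odd, rank five
    subst hM4
    obtain ⟨h1, h2⟩ := hhalf hz
    have hTo : ∀ i, Odd (T i) := by
      rcases hTeo with ⟨t, ht'⟩ | h1
      · exfalso
        have h2 := ht' (Fin.castSucc 0)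
        rw [ht 0] at h2
        omega
      · exact h1
    have hTl1 : |T (Fin.last 4)| = 1 := by
      refine odd_abs14 (hTo _) ?_
      have h3 := hTd _ _ (hlt 0)
      rw [ht 0] at h3
      exact h3
    have hsq : ∑ i, T i ^ 2 = 5 := by
      rw [Fin.sum_univ_castSucc, Finset.sum_congr rfl fun i _ => by rw [ht i], ← sq_abs (T (Fin.last 4)), hTl1]
      norm_num
    rw [hsq] at h2
    have hZv : Z = ![1, 1, 1, 1, 1] ∨ Z = ![1, 1, 1, 1, -1] := by
      rcases (abs_eq (by norm_num : (0 : ℤ) ≤ 1)).1 h1 with h3 | h3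
      · left
        funext i
        refine Fin.lastCases ?_ (fun j => ?_) i
        · rw [h3]; rfl
        · rw [hz j]; fin_cases j <;> rfl
      · right
        funext i
        refine Fin.lastCases ?_ (fun j => ?_) i
        · rw [h3]; rfl
        · rw [hz j]; fin_cases j <;> rfl
    obtain ⟨hp1, hp2⟩ := Py5_98 Z hZv
    have hdim := dimY98 h F' S Z hZx
    have hn : ((a + b + c : ℕ) : ℤ) = 16 := by
      refine mul_right_cancel₀ hp2 ?_
      rw [← hp1]
      exact hdim
    have hn' : a + b + c = 16 := by exact_mod_cast hn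
    have hnr : (a : ℝ) + b + c = 16 := by exact_mod_cast hn'
    have hZT : Z (Fin.last 4) * T (Fin.last 4) = 1 ∨ Z (Fin.last 4) * T (Fin.last 4) = -1 := by
      rcases (abs_eq (by norm_num : (0 : ℤ) ≤ 1)).1 h1 with h3 | h3 <;>
      rcases (abs_eq (by norm_num : (0 : ℤ) ≤ 1)).1 hTl1 with h4 | h4 <;> rw [h3, h4] <;> norm_num
    have hlyy := h.ly
    rw [hnr] at hlyy h2
    push_cast at h2
    rcases hZT with h3 | h3
    · left
      rw [h3] at hly
      push_cast at hly
      have h4 : (b : ℝ) + 2 * c = 20 := by linarith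
      have h5 : (c : ℝ) = a + 4 := by linarith
      rw [h5] at h2
      have h6 : (a : ℝ) = 1 := by linarith
      have h7 : a = 1 := by exact_mod_cast h6
      have h8 : (c : ℝ) = 5 := by linarith
      have h9 : c = 5 := by exact_mod_cast h8
      exact ⟨h7, by omega, h9⟩
    · right; left
      rw [h3] at hly
      push_cast at hly
      have h4 : (b : ℝ) + 2 * c = 12 := by linarith
      have h5 : (a : ℝ) = c + 4 := by linarith
      rw [h5] at h2
      have h6 : (c : ℝ) = 1 := by linarith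
      have h7 : c = 1 := by exact_mod_cast h6
      have h8 : (a : ℝ) = 5 := by linarith
      have h9 : a = 5 := by exact_mod_cast h8
      exact ⟨h9, by omega, h7⟩

end L2
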