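import Pool.Agent.Helper14.LT.Comb

/-!
Project L2 (MP_b8862a_ag), type `D`, modules which are not self-dual: the combinatorics.
-/

set_option linter.unusedSectionVars false
set_option linter.unusedVariables false

namespace L2

variable {M : ℕ} {Z T : Fin M → ℤ}

theorem sub_le98 (hZ : ∀ i, 1 ≤ Z i) (hT : ∀ i, 0 ≤ T i) (hS : ∑ i, Z i * T i = 4) (A : Finset (Fin M)) :
    ∑ i ∈ A, Z i * T i ≤ 4 := by
  rw [← hS]
  exact Finset.sum_le_univ_sum_of_nonneg fun i => mul_nonneg (by have := hZ i; omega) (hT i)

theorem pair_le98 (hZ : ∀ i, 1 ≤ Z i) (hT : ∀ i, 0 ≤ T i) (hS : ∑ i, Z i * T i = 4) {i j : Fin M} (hij : i ≠ j) :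
    Z i * T i + Z j * T j ≤ 4 := by
  have h1 := sub_le98 hZ hT hS {i, j}
  rwa [Finset.sum_pair hij] at h1

theorem triple_le98 (hZ : ∀ i, 1 ≤ Z i) (hT : ∀ i, 0 ≤ T i) (hS : ∑ i, Z i * T i = 4) {i j k : Fin M} (hij : i ≠ j)
    (hik : i ≠ k) (hjk : j ≠ k) : Z i * T i + Z j * T j + Z k * T k ≤ 4 := by
  have h1 := sub_le98 hZ hT hS {i, j, k}
  rw [Finset.sum_insert (by simp [hij, hik]), Finset.sum_pair hjk] at h1
  linarith

/-- the four cases -/
theorem comb98 (hM : 4 ≤ M) (hZ : ∀ i, 1 ≤ Z i) (hZd : ∀ i j, i < j → Z j ≤ Z i) (hT : ∀ i, 0 ≤ T i)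
    (hTd : ∀ i j, i < j → T j ≤ T i) (hS : ∑ i, Z i * T i = 4)
    (hZp : (∀ i, Even (Z i)) ∨ ∀ i, Odd (Z i)) (hTp : (∀ i, Even (T i)) ∨ ∀ i, Odd (T i)) :
    ((∀ i, Z i = 2) ∧ ∀ i : Fin M, T i = if (i : ℕ) = 0 then 2 else 0) ∨
    ((∀ i, Z i = 1) ∧ ∀ i : Fin M, T i = if (i : ℕ) = 0 then 4 else 0) ∨
    ((∀ i, Z i = 1) ∧ ∀ i : Fin M, T i = if (i : ℕ) < 2 then 2 else 0) ∨
    (M = 4 ∧ (∀ i, Z i = 1) ∧ ∀ i, T i = 1) := by
  classical
  let i0 : Fin M := ⟨0, by omega⟩
  let i1 : Fin M := ⟨1, by omega⟩
  let i2 : Fin M := ⟨2, by omega⟩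
  have h01 : i0 ≠ i1 := by intro h; rw [Fin.mk.injEq] at h; omega
  have h02 : i0 ≠ i2 := by intro h; rw [Fin.mk.injEq] at h; omega
  have h12 : i1 ≠ i2 := by intro h; rw [Fin.mk.injEq] at h; omega
  have hZ0 : ∀ j, Z j ≤ Z i0 := by
    intro j
    by_cases h : j = i0
    · rw [h]
    · exact hZd _ _ (by
        rw [Fin.lt_def]
        have : (j : ℕ) ≠ 0 := fun h' => h (Fin.ext h')
        show 0 < (j : ℕ)
        omega)
  have hT0 : ∀ j, T j ≤ T i0 := by
    intro j
    by_cases h : j = i0
    · rw [h]
    · exact hTd _ _ (by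
        rw [Fin.lt_def]
        have : (j : ℕ) ≠ 0 := fun h' => h (Fin.ext h')
        show 0 < (j : ℕ)
        omega)
  rcases hTp with hTe | hTo
  · -- `T` even
    have hT2 : 2 ≤ T i0 := by
      by_contra hcon
      have h1 : T i0 = 0 := by
        obtain ⟨q, hq⟩ := hTe i0
        have := hT i0
        omega
      have h2 : ∑ i, Z i * T i = 0 := Finset.sum_eq_zero fun i _ => by
        have h3 := hT0 i
        have h4 := hT i
        have h5 : T i = 0 := by omega
        rw [h5, mul_zero]
      omega
    have hi2 : T i2 = 0 := by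
      by_contra hcon
      have h1 : 2 ≤ T i2 := by
        obtain ⟨q, hq⟩ := hTe i2
        have := hT i2
        omega
      have h2 := triple_le98 hZ hT hS h01 h02 h12
      have h3 : T i2 ≤ T i1 := hTd _ _ (by rw [Fin.lt_def]; show 1 < 2; norm_num)
      have h4 := hZ i0
      have h5 := hZ i1
      have h6 := hZ i2
      nlinarith
    have hT3 : ∀ j : Fin M, 2 ≤ (j : ℕ) → T j = 0 := by
      intro j hj
      by_cases h : j = i2
      · rw [h, hi2]
      · have h1 := hTd i2 j (by
          rw [Fin.lt_def]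
          have : (j : ℕ) ≠ 2 := fun h' => h (Fin.ext h')
          show 2 < (j : ℕ)
          omega)
        have := hT j
        omega
    have hS2 : Z i0 * T i0 + Z i1 * T i1 = 4 := by
      rw [← hS, ← Finset.sum_pair h01 (f := fun i => Z i * T i)]
      refine Finset.sum_subset (Finset.subset_univ _) fun i _ hi => ?_
      rw [hT3 i, mul_zero]
      by_contra hcon
      apply hi
      rw [Finset.mem_insert, Finset.mem_singleton, Fin.ext_iff, Fin.ext_iff]
      show (i : ℕ) = 0 ∨ (i : ℕ) = 1
      omega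
    by_cases h1 : T i1 = 0
    · have hTj : ∀ j : Fin M, (j : ℕ) ≠ 0 → T j = 0 := by
        intro j hj
        by_cases h : (j : ℕ) = 1
        · have : j = i1 := Fin.ext h
          rw [this, h1]
        · exact hT3 j (by omega)
      rw [h1, mul_zero, add_zero] at hS2
      have hz := hZ i0
      have hz4 : Z i0 ≤ 2 := by nlinarith
      have hcase : Z i0 = 1 ∨ Z i0 = 2 := by omega
      rcases hcase with h2 | h2
      · rw [h2, one_mul] at hS2
        right; left
        refine ⟨fun i => ?_, fun i => ?_⟩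
        · have := hZ i
          have := hZ0 i
          omega
        · by_cases h : (i : ℕ) = 0
          · rw [if_pos h]
            have : i = i0 := Fin.ext h
            rw [this, hS2]
          · rw [if_neg h, hTj i h]
      · rw [h2] at hS2
        left
        refine ⟨fun i => ?_, fun i => ?_⟩
        · have h3 := hZ i
          have h4 := hZ0 i
          rcases hZp with h5 | h5
          · obtain ⟨q, hq⟩ := h5 i
            omega
          · obtain ⟨q, hq⟩ := h5 i0
            omega
        · by_cases h : (i : ℕ) = 0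
          · rw [if_pos h]
            have : i = i0 := Fin.ext h
            rw [this]
            omega
          · rw [if_neg h, hTj i h]
    · have h2 : 2 ≤ T i1 := by
        obtain ⟨q, hq⟩ := hTe i1
        have := hT i1
        omega
      have h3 := hZ i0
      have h4 := hZ i1
      have h5 : T i0 = 2 := by nlinarith
      have h6 : T i1 = 2 := by nlinarith
      rw [h5, h6] at hS2
      right; right; left
      refine ⟨fun i => ?_, fun i => ?_⟩
      · have := hZ i
        have := hZ0 i
        omega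
      · by_cases h : (i : ℕ) < 2
        · rw [if_pos h]
          by_cases h' : (i : ℕ) = 0
          · have : i = i0 := Fin.ext h'
            rw [this, h5]
          · have : i = i1 := Fin.ext (by show (i : ℕ) = 1; omega)
            rw [this, h6]
        · rw [if_neg h, hT3 i (by omega)]
  · -- `T` odd
    have hT1 : ∀ i, 1 ≤ T i := by
      intro i
      obtain ⟨q, hq⟩ := hTo i
      have := hT i
      omega
    have h1 : ∀ i ∈ (Finset.univ : Finset (Fin M)), (1 : ℤ) ≤ Z i * T i := by
      intro i _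
      have := hT1 i
      have := hZ i
      nlinarith
    have h2 : (M : ℤ) ≤ 4 := by
      have h3 := Finset.sum_le_sum h1
      rw [hS, Finset.sum_const, Finset.card_univ, Fintype.card_fin, nsmul_eq_mul, mul_one] at h3
      exact h3
    have hM4 : M = 4 := by omega
    have h3 : ∑ i, (Z i * T i - 1) = 0 := by
      rw [Finset.sum_sub_distrib, hS, Finset.sum_const, Finset.card_univ, Fintype.card_fin, nsmul_eq_mul, mul_one, hM4]
      norm_num
    have h4 := (Finset.sum_eq_zero_iff_of_nonneg fun i hi => by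
      have := h1 i hi
      omega).1 h3
    right; right; right
    refine ⟨hM4, fun i => ?_, fun i => ?_⟩
    · have h5 := h4 i (Finset.mem_univ i)
      have h6 := hT1 i
      have h7 := hZ i
      nlinarith
    · have h5 := h4 i (Finset.mem_univ i)
      have h6 := hT1 i
      have h7 := hZ i
      nlinarith

end L2
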