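import Pool.Agent.Helper98.L2.Neg
import Pool.Agent.Helper98.L2.CombU
import Pool.Agent.Helper14.LT.TypeBCD
import Pool.Agent.Helper59.AT.DimU

/-!
Project L2 (MP_b8862a_ag), type `D`, modules which are not self-dual: coordinates of `l` and `y`.
-/

set_option linter.unusedSectionVars false
set_option linter.unusedVariables false

open Module PF TF PW AT LT

namespace L2

variable {E : Type*} [NormedAddCommGroup E] [InnerProductSpace ℝ E] {Φ X : Finset E} {m M d a b c : ℕ} {l y v : E}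
  {κ : ℝ}

/-- a signed permutation of the frame is ordered -/
theorem sorted98 {e : Fin m → E} (hreg : ∀ r ∈ Φ, (inner ℝ v r : ℝ) ≠ 0) (F : Fr Φ m e κ d) :
    ∃ e' : Fin m → E, Fr Φ m e' κ d ∧ Srt14 m d e' v := by
  have hc := F.pos
  set σ : Equiv.Perm (Fin m) := Tuple.sort fun i => -|(inner ℝ v (e i) : ℝ)| with hσ
  have hmono : Monotone ((fun i => -|(inner ℝ v (e i) : ℝ)|) ∘ σ) := Tuple.monotone_sort _
  set s : Fin m → ℝ := fun i => if 0 ≤ (inner ℝ v (e (σ i)) : ℝ) then 1 else -1 with hs'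
  have hs1 : ∀ i, s i = 1 ∨ s i = -1 := by
    intro i
    simp only [hs']
    split_ifs
    · left; rfl
    · right; rfl
  have F' := fr_perm43 F σ s hs1
  have hvi : ∀ i, (inner ℝ v (s i • e (σ i)) : ℝ) = |(inner ℝ v (e (σ i)) : ℝ)| := by
    intro i
    rw [inner_smul_right]
    simp only [hs']
    split_ifs with h1
    · rw [abs_of_nonneg h1]
      simp
    · push Not at h1
      rw [abs_of_neg h1]
      simp
  refine ⟨fun i => s i • e (σ i), F', ⟨?_, ?_, ?_⟩⟩
  · intro i j hij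
    rw [hvi, hvi]
    have h1 := hmono hij.le
    simp only [Function.comp_apply] at h1
    rcases lt_or_eq_of_le (show |(inner ℝ v (e (σ j)) : ℝ)| ≤ |inner ℝ v (e (σ i))| by linarith) with h2 | h2
    · exact h2
    · exfalso
      have hne : σ i ≠ σ j := fun h3 => (ne_of_lt hij) (σ.injective h3)
      rcases abs_eq_abs.1 h2 with h3 | h3
      · refine hreg (κ • (e (σ i) - e (σ j))) ((F.mem _).2 (Or.inl ⟨σ i, σ j, hne, Or.inr (Or.inl rfl)⟩)) ?_
        rw [inner_smul_right, inner_sub_right, h3, sub_self, mul_zero]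
      · refine hreg (κ • (e (σ i) + e (σ j))) ((F.mem _).2 (Or.inl ⟨σ i, σ j, hne, Or.inl rfl⟩)) ?_
        rw [inner_smul_right, inner_add_right, h3, add_neg_cancel, mul_zero]
  · intro i
    rw [hvi]
    exact abs_nonneg _
  · intro hd0 i
    rw [hvi, abs_pos]
    intro h1
    refine hreg ((d * κ : ℝ) • e (σ i)) ((F.mem _).2 (Or.inr ⟨hd0, σ i, Or.inl rfl⟩)) ?_
    rw [inner_smul_right, h1, mul_zero]

theorem yint98 {e : Fin m → E} (hlev : ∀ r ∈ Φ, ∃ k : ℤ, (inner ℝ r y : ℝ) = k) (F : Fr Φ m e κ d) (hm : 2 ≤ m) :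
    ∃ T : Fin m → ℤ, (∀ i, (inner ℝ y (e i) : ℝ) * (2 * κ) = T i) ∧ (∀ i j, Even (T i - T j)) := by
  have hYex : ∀ i, ∃ k : ℤ, (inner ℝ y (e i) : ℝ) * (2 * κ) = (k : ℝ) := by
    intro i
    obtain ⟨j, hij⟩ : ∃ j, i ≠ j := by
      have : Nontrivial (Fin m) := Fin.nontrivial_iff_two_le.2 hm
      obtain ⟨j, hj⟩ := exists_ne i
      exact ⟨j, hj.symm⟩
    obtain ⟨a, ha⟩ := hlev _ (F.rt_mem hij (s := 1) (t := 1) (Or.inl rfl) (Or.inl rfl))
    obtain ⟨b, hb⟩ := hlev _ (F.rt_mem hij (s := 1) (t := -1) (Or.inl rfl) (Or.inr rfl))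
    rw [real_inner_comm, inner_rt] at ha hb
    refine ⟨a + b, ?_⟩
    push_cast at ha hb ⊢
    linarith
  choose T' hT using hYex
  refine ⟨T', hT, ?_⟩
  intro i j
  by_cases hij : i = j
  · rw [hij, sub_self]
    exact ⟨0, rfl⟩
  · obtain ⟨b, hb⟩ := hlev _ (F.rt_mem hij (s := 1) (t := -1) (Or.inl rfl) (Or.inr rfl))
    rw [real_inner_comm, inner_rt] at hb
    refine ⟨b, ?_⟩
    have h1 : ((T' i - T' j : ℤ) : ℝ) = ((b + b : ℤ) : ℝ) := by
      push_cast at hb ⊢
      rw [← hT, ← hT]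
      linarith
    exact_mod_cast h1

theorem lint98 {e : Fin m → E} (hl : ∀ r ∈ Φ, ∃ k : ℤ, co r l = k) (F : Fr Φ m e κ d) (hm : 2 ≤ m) :
    ∃ Z : Fin m → ℤ, (∀ i, (inner ℝ l (e i) : ℝ) * (2 / κ) = Z i) ∧ (∀ i j, Even (Z i - Z j)) := by
  have hc := F.pos
  have hcx : ∀ i, (inner ℝ l (e i) : ℝ) * (2 / κ) = 2 * cx e κ l i := by
    intro i
    unfold cx
    ring
  rcases int_or59 F hl hm with ⟨z, hz⟩ | ⟨z, hz⟩
  · refine ⟨fun i => 2 * z i, ?_, ?_⟩
    · intro i
      rw [hcx, hz]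
      push_cast
      ring
    · intro i j
      exact ⟨z i - z j, by ring⟩
  · refine ⟨fun i => 2 * z i + 1, ?_, ?_⟩
    · intro i
      rw [hcx, hz]
      push_cast
      ring
    · intro i j
      exact ⟨z i - z j, by ring⟩

/-- the sign change of the last coordinate preserves the dominant vectors -/
theorem dom_last98 {e : Fin (M + 1) → E} (F : Fr Φ (M + 1) e κ 0) (S : Srt14 (M + 1) 0 e v)
    (hy : ∀ r ∈ Ps Φ v, 0 ≤ (inner ℝ y r : ℝ)) :
    ∀ r ∈ Ps Φ v, 0 ≤ (inner ℝ (y - (2 * inner ℝ y (e (Fin.last M)) : ℝ) • e (Fin.last M)) r : ℝ) := by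
  have hc := F.pos
  obtain ⟨hd, -⟩ := dom14 F S hy
  set z := y - (2 * inner ℝ y (e (Fin.last M)) : ℝ) • e (Fin.last M) with hz
  have hzi : ∀ i, (inner ℝ z (e i) : ℝ) = if i = Fin.last M then -inner ℝ y (e i) else inner ℝ y (e i) := by
    intro i
    rw [hz, inner_sub_left, inner_smul_left, F.inner_e]
    simp only [conj_trivial]
    by_cases h : i = Fin.last M
    · rw [if_pos h.symm, if_pos h, h]
      ring
    · rw [if_neg (Ne.symm h), if_neg h]
      ring
  have hpair : ∀ i j : Fin (M + 1), i < j → ∀ t : ℝ, (t = 1 ∨ t = -1) → 0 ≤ (inner ℝ z (e i) : ℝ) + t * inner ℝ z (e j) := by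
    intro i j hij t ht
    have h1 := hd i j hij
    have h2 : i ≠ Fin.last M := fun h => absurd (h ▸ hij) (not_lt.2 (Fin.le_last j))
    rw [hzi i, if_neg h2, hzi j]
    rw [abs_le] at h1
    split_ifs <;> rcases ht with rfl | rfl <;> linarith [h1.1, h1.2]
  intro r hr
  unfold Ps at hr
  rw [Finset.mem_filter] at hr
  obtain ⟨hr1, hr2⟩ := hr
  rw [F.mem, fr_pairs43] at hr1
  rcases hr1 with ⟨i, j, hij, s, t, hs, ht, rfl⟩ | ⟨h, -⟩
  · rw [inner_smul_right, inner_add_right, inner_smul_right, inner_smul_right] at hr2 ⊢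
    have h3 := (mul_pos_iff_of_pos_left hc).1 hr2
    refine mul_nonneg hc.le ?_
    rcases lt_or_gt_of_ne hij with h | h
    · have h4 := S.lt i j h
      have h5 := S.nn j
      rcases hs with rfl | rfl
      · have := hpair i j h t ht
        linarith
      · exfalso
        rcases ht with rfl | rfl <;> linarith
    · have h4 := S.lt j i h
      have h5 := S.nn i
      rcases ht with rfl | rfl
      · have := hpair j i h s hs
        linarith
      · exfalso
        rcases hs with rfl | rfl <;> linarith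
  · exact absurd rfl h

end L2
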