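import Pool.Agent.Helper14.L2.DefsU
import Pool.Agent.Helper14.LT.Geo

/-!
Project L2 (MP_b8862a_ag), modules which are not self-dual: reflections; the types in which `-1` is in the Weyl group.
-/

set_option linter.unusedSectionVars false
set_option linter.unusedVariables false

open Module PF TF PW AT

namespace L2

variable {E : Type*} [NormedAddCommGroup E] [InnerProductSpace ℝ E] {Φ X : Finset E} {m d a b c : ℕ} {l y v : E}
  {e : Fin m → E} {κ : ℝ}

theorem neg_root98 (hR : RS Φ) {r : E} (hr : r ∈ Φ) : -r ∈ Φ := by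
  have h1 := hR.refl r hr r hr
  have h2 : co r r = 2 := by
    unfold co
    have : (inner ℝ r r : ℝ) ≠ 0 := fun h => hR.ne_zero r hr (inner_self_eq_zero.1 h)
    field_simp
  rw [h2] at h1
  have h3 : r - (2 : ℝ) • r = -r := by
    rw [two_smul]
    abel
  rwa [h3] at h1

theorem refl98 (hR : RS Φ) (hX : AT.Sat' Φ X) {r x : E} (hr : r ∈ Φ) (hx : x ∈ X) : x - co r x • r ∈ X := by
  have hna := neg_root98 hR hr
  obtain ⟨k, hk⟩ := hX.int r hr x hx
  rcases le_or_gt 0 k with h0 | h0
  · have h2 : ((k.toNat : ℕ) : ℝ) = k := by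
      have : ((k.toNat : ℤ) : ℝ) = k := by rw [Int.toNat_of_nonneg h0]
      rw [Int.cast_natCast] at this
      exact this
    have h1 := hX.str r hr x hx k.toNat (by rw [hk, h2])
    rw [h2] at h1
    rw [hk]; exact h1
  · have h3 : ((-k).toNat : ℤ) = -k := Int.toNat_of_nonneg (by omega)
    have h2 : (((-k).toNat : ℕ) : ℝ) = -k := by
      have : (((-k).toNat : ℤ) : ℝ) = ((-k : ℤ) : ℝ) := by rw [h3]
      rw [Int.cast_natCast] at this
      rw [this]; push_cast; rfl
    have h1 := hX.str (-r) hna x hx (-k).toNat (by rw [co_neg_left, hk, h2])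
    rw [h2, smul_neg, neg_smul, neg_neg] at h1
    rw [hk]; exact h1

/-- the product of the reflections in orthogonal roots -/
theorem reflS98 (hR : RS Φ) (hX : AT.Sat' Φ X) (A : Finset E) (hA : ∀ r ∈ A, r ∈ Φ)
    (ho : ∀ r ∈ A, ∀ s ∈ A, r ≠ s → (inner ℝ r s : ℝ) = 0) {x : E} (hx : x ∈ X) : x - ∑ r ∈ A, co r x • r ∈ X := by
  classical
  induction A using Finset.induction_on with
  | empty => simpa using hx
  | insert r A hr ih =>
    have h1 := ih (fun s hs => hA s (Finset.mem_insert_of_mem hs))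
      (fun s hs t ht => ho s (Finset.mem_insert_of_mem hs) t (Finset.mem_insert_of_mem ht))
    have h2 := refl98 hR hX (hA r (Finset.mem_insert_self r A)) h1
    have h3 : co r (x - ∑ s ∈ A, co s x • s) = co r x := by
      unfold co
      rw [inner_sub_left, sum_inner, Finset.sum_eq_zero, sub_zero]
      intro s hs
      rw [inner_smul_left, ho s (Finset.mem_insert_of_mem hs) r (Finset.mem_insert_self r A) (fun h => hr (h ▸ hs)),
        mul_zero]
    rw [h3] at h2
    rw [Finset.sum_insert hr]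
    have h4 : x - (co r x • r + ∑ s ∈ A, co s x • s) = x - ∑ s ∈ A, co s x • s - co r x • r := by abel
    rw [h4]
    exact h2

/-- a spanning set of orthogonal roots: the set of the weights is symmetric -/
theorem neg_mem98 (hR : RS Φ) (hX : AT.Sat' Φ X) (A : Finset E) (hA : ∀ r ∈ A, r ∈ Φ)
    (ho : ∀ r ∈ A, ∀ s ∈ A, r ≠ s → (inner ℝ r s : ℝ) = 0)
    (hs : ∀ w ∈ Submodule.span ℝ (Φ : Set E), (∀ r ∈ A, (inner ℝ w r : ℝ) = 0) → w = 0) {x : E} (hx : x ∈ X) :
    -x ∈ X := by
  classical
  have h1 := reflS98 hR hX A hA ho hx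
  have h2 : 2 • x - ∑ r ∈ A, co r x • r = 0 := by
    refine hs _ ?_ ?_
    · refine Submodule.sub_mem _ (Submodule.smul_of_tower_mem _ _ (hX.span x hx)) (Submodule.sum_mem _ fun r hr => ?_)
      exact Submodule.smul_mem _ _ (Submodule.subset_span (hA r hr))
    · intro r hr
      have hne : (inner ℝ r r : ℝ) ≠ 0 := fun h => hR.ne_zero r (hA r hr) (inner_self_eq_zero.1 h)
      rw [inner_sub_left, sum_inner, Finset.sum_eq_single r]
      · rw [inner_smul_left, two_nsmul, inner_add_left]
        simp only [conj_trivial]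
        unfold co
        field_simp
        ring
      · intro s hs' hsr
        rw [inner_smul_left, ho s hs' r hr hsr, mul_zero]
      · intro h
        exact absurd hr h
  have h3 : -x = x - ∑ r ∈ A, co r x • r := by
    have h4 : x - ∑ r ∈ A, co r x • r = (2 • x - ∑ r ∈ A, co r x • r) - x := by
      rw [two_nsmul]
      abel
    rw [h4, h2, zero_sub]
  rw [h3]
  exact h1

/-- **`-1` in the Weyl group** -/
theorem DU.false98 (h : DU Φ X a b c l y v) (A : Finset E) (hA : ∀ r ∈ A, r ∈ Φ)
    (ho : ∀ r ∈ A, ∀ s ∈ A, r ≠ s → (inner ℝ r s : ℝ) = 0)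
    (hs : ∀ w ∈ Submodule.span ℝ (Φ : Set E), (∀ r ∈ A, (inner ℝ w r : ℝ) = 0) → w = 0) : False :=
  h.nsd (neg_mem98 h.rs h.sat A hA ho hs h.l_mem)

/-- sign changes of two coordinates -/
theorem flip98 (hR : RS Φ) (F : Fr Φ m e κ d) (hX : AT.Sat' Φ X) {x : E} (hx : x ∈ X) {i j : Fin m} (hij : i ≠ j) :
    ∃ y ∈ X, ∀ k, cx e κ y k = if k = i ∨ k = j then -cx e κ x k else cx e κ x k := by
  have h1 := refl98 hR hX (F.rt_mem hij (Or.inl rfl) (Or.inl rfl)) hx
  rw [F.co_rt hij (Or.inl rfl) (Or.inl rfl)] at h1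
  set x1 := x - (((1 : ℤ) : ℝ) * cx e κ x i + ((1 : ℤ) : ℝ) * cx e κ x j) • rt e κ 1 1 i j with hx1
  have hc1 : ∀ k, cx e κ x1 k = cx e κ x k - (cx e κ x i + cx e κ x j) *
      ((if i = k then 1 else 0) + (if j = k then 1 else 0)) := by
    intro k
    rw [hx1, F.cx_sub_smul]
    push_cast
    ring
  have h3 := refl98 hR hX (F.rt_mem hij (s := 1) (t := -1) (Or.inl rfl) (Or.inr rfl)) h1
  rw [F.co_rt hij (Or.inl rfl) (Or.inr rfl)] at h3
  refine ⟨_, h3, fun k => ?_⟩
  rw [F.cx_sub_smul, hc1 k, hc1 i, hc1 j, if_pos rfl, if_neg hij.symm, if_neg hij, if_pos rfl]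
  push_cast
  by_cases hki : k = i
  · subst hki
    rw [if_pos rfl, if_neg hij.symm, if_pos (Or.inl rfl)]
    ring
  · by_cases hkj : k = j
    · subst hkj
      rw [if_neg (Ne.symm hki), if_pos rfl, if_pos (Or.inr rfl)]
      ring
    · rw [if_neg (Ne.symm hki), if_neg (Ne.symm hkj), if_neg (by tauto)]
      ring

/-- sign changes of the first coordinates -/
theorem flips98 (hR : RS Φ) (F : Fr Φ m e κ d) (hX : AT.Sat' Φ X) {x : E} (hx : x ∈ X) (k : ℕ) (hk : 2 * k ≤ m) :
    ∃ y ∈ X, ∀ j : Fin m, cx e κ y j = if (j : ℕ) < 2 * k then -cx e κ x j else cx e κ x j := by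
  induction k with
  | zero => exact ⟨x, hx, by simp⟩
  | succ k ih =>
    obtain ⟨y, hy, h1⟩ := ih (by omega)
    obtain ⟨z, hz, h2⟩ := flip98 hR F hX hy (i := ⟨2 * k, by omega⟩) (j := ⟨2 * k + 1, by omega⟩) (by
      intro h
      rw [Fin.mk.injEq] at h
      omega)
    refine ⟨z, hz, fun j => ?_⟩
    rw [h2 j, h1 j]
    simp only [Fin.ext_iff]
    split_ifs <;> first | rfl | omega

theorem cx_neg98 (x : E) (i : Fin m) : cx e κ (-x) i = -cx e κ x i := by
  unfold cx
  rw [inner_neg_left, neg_div]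

/-- type `D`, even rank -/
theorem typeDU_even (h : DU Φ X a b c l y v) (F : Fr Φ m e κ d) (hm : 2 ≤ m) (he : Even m) : False := by
  obtain ⟨k, hk⟩ := he
  obtain ⟨z, hz, h1⟩ := flips98 h.rs F h.sat h.l_mem k (by omega)
  have h2 : z = -l := F.eq_of_cx hm (h.sat.span z hz) (Submodule.neg_mem _ (h.sat.span l h.l_mem)) (fun i => by
    rw [h1 i, if_pos (by omega), cx_neg98])
  exact h.nsd (h2 ▸ hz)

/-- the types `B` and `C` -/
theorem typeBCU (h : DU Φ X a b c l y v) (F : Fr Φ m e κ d) (hd : d ≠ 0) : False := by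
  classical
  have hc := F.pos
  have hdr : (0 : ℝ) < d := by exact_mod_cast Nat.pos_of_ne_zero hd
  refine h.false98 (Finset.univ.image fun i => ((d : ℝ) * κ) • e i) ?_ ?_ ?_
  · intro r hr
    obtain ⟨i, -, rfl⟩ := Finset.mem_image.1 hr
    exact (F.mem _).2 (Or.inr ⟨hd, i, Or.inl rfl⟩)
  · intro r hr s hs hrs
    obtain ⟨i, -, rfl⟩ := Finset.mem_image.1 hr
    obtain ⟨j, -, rfl⟩ := Finset.mem_image.1 hs
    have hij : i ≠ j := fun h => hrs (by rw [h])
    rw [inner_smul_left, inner_smul_right, F.inner_e, if_neg hij, mul_zero, mul_zero]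
  · intro w hw hw0
    have h0 : ∀ i, (inner ℝ w (e i) : ℝ) = 0 := by
      intro i
      have h1 := hw0 _ (Finset.mem_image_of_mem _ (Finset.mem_univ i))
      rw [inner_smul_right] at h1
      rcases mul_eq_zero.1 h1 with h2 | h2
      · exact absurd h2 (by positivity)
      · exact h2
    -- `w` is orthogonal to the span
    have h1 : ∀ u ∈ Submodule.span ℝ (Φ : Set E), (inner ℝ w u : ℝ) = 0 := by
      intro u hu
      induction hu using Submodule.span_induction with
      | mem r hr =>
        rcases (F.mem r).1 hr with ⟨i, j, -, h2⟩ | ⟨-, i, h2⟩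
        · rcases h2 with rfl | rfl | rfl
          · rw [inner_smul_right, inner_add_right, h0, h0, add_zero, mul_zero]
          · rw [inner_smul_right, inner_sub_right, h0, h0, sub_zero, mul_zero]
          · rw [inner_neg_right, inner_smul_right, inner_add_right, h0, h0, add_zero, mul_zero, neg_zero]
        · rcases h2 with rfl | rfl
          · rw [inner_smul_right, h0, mul_zero]
          · rw [inner_neg_right, inner_smul_right, h0, mul_zero, neg_zero]
      | zero => rw [inner_zero_right]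
      | add x y _ _ hx hy => rw [inner_add_right, hx, hy, add_zero]
      | smul t x _ hx => rw [inner_smul_right, hx, mul_zero]
    exact inner_self_eq_zero.1 (h1 w hw)

/-- type `F_4` -/
theorem typeF4U {e : Fin 4 → E} (h : DU Φ X a b c l y v) (F : LT.TyF4 Φ e) : False := by
  classical
  have he : ∀ i j, (inner ℝ (e i) (e j) : ℝ) = if i = j then 1 else 0 := orthonormal_iff_ite.1 F.on
  refine h.false98 (Finset.univ.image fun i => (2 : ℝ) • e i) ?_ ?_ ?_
  · intro r hr
    obtain ⟨i, -, rfl⟩ := Finset.mem_image.1 hr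
    exact (F.mem _).2 (Or.inr (Or.inl ⟨i, Or.inl rfl⟩))
  · intro r hr s hs hrs
    obtain ⟨i, -, rfl⟩ := Finset.mem_image.1 hr
    obtain ⟨j, -, rfl⟩ := Finset.mem_image.1 hs
    have hij : i ≠ j := fun h => hrs (by rw [h])
    rw [inner_smul_left, inner_smul_right, he, if_neg hij, mul_zero, mul_zero]
  · intro w hw hw0
    have h0 : ∀ i, (inner ℝ w (e i) : ℝ) = 0 := by
      intro i
      have h1 := hw0 _ (Finset.mem_image_of_mem _ (Finset.mem_univ i))
      rw [inner_smul_right] at h1
      rcases mul_eq_zero.1 h1 with h2 | h2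
      · norm_num at h2
      · exact h2
    have h1 : ∀ u ∈ Submodule.span ℝ (Φ : Set E), (inner ℝ w u : ℝ) = 0 := by
      intro u hu
      induction hu using Submodule.span_induction with
      | mem r hr =>
        rcases (F.mem r).1 hr with ⟨i, j, -, h2⟩ | ⟨i, h2⟩ | ⟨t, -, rfl⟩
        · rcases h2 with rfl | rfl | rfl
          · rw [inner_add_right, h0, h0, add_zero]
          · rw [inner_sub_right, h0, h0, sub_zero]
          · rw [inner_neg_right, inner_add_right, h0, h0, add_zero, neg_zero]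
        · rcases h2 with rfl | rfl
          · rw [inner_smul_right, h0, mul_zero]
          · rw [inner_neg_right, inner_smul_right, h0, mul_zero, neg_zero]
        · rw [inner_sum]
          exact Finset.sum_eq_zero fun i _ => by rw [inner_smul_right, h0, mul_zero]
      | zero => rw [inner_zero_right]
      | add x y _ _ hx hy => rw [inner_add_right, hx, hy, add_zero]
      | smul t x _ hx => rw [inner_smul_right, hx, mul_zero]
    exact inner_self_eq_zero.1 (h1 w hw)

end L2
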