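import Pool.Agent.Helper98.L2.Neg
import Pool.Agent.Helper98.LT.Frame
import Pool.Agent.Helper94.LT.Gen

/-!
Project L2 (MP_b8862a_ag), modules which are not self-dual: the types `E_7`, `E_8`, `G_2` are impossible.
-/

set_option linter.unusedSectionVars false
set_option linter.unusedVariables false

open Module PF TF PW AT LT

namespace L2

variable {E : Type*} [NormedAddCommGroup E] [InnerProductSpace ℝ E] {Φ X : Finset E} {m a b c : ℕ} {l y v : E}

theorem inner_vc98 {u : Fin m → E} {q : ℝ} (hu : ∀ i j, inner ℝ (u i) (u j) = (if i = j then (1 : ℝ) else 0) - q)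
    (z w : Fin m → ℤ) : (inner ℝ (vc u z) (vc u w) : ℝ) = (∑ i, z i * w i : ℤ) - q * ((∑ i, z i : ℤ) * (∑ i, w i : ℤ)) := by
  rw [inner_vc]
  have h1 : ∀ j, (inner ℝ (vc u z) (u j) : ℝ) = z j - q * ∑ i, (z i : ℝ) := by
    intro j
    rw [real_inner_comm, inner_vc]
    have h2 : ∀ i ∈ (Finset.univ : Finset (Fin m)), (z i : ℝ) * inner ℝ (u j) (u i) =
        (if j = i then (z i : ℝ) else 0) - q * z i := by
      intro i _
      rw [hu]
      split_ifs <;> ring
    rw [Finset.sum_congr rfl h2, Finset.sum_sub_distrib, Finset.sum_ite_eq, if_pos (Finset.mem_univ _), Finset.mul_sum]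
  simp only [h1]
  push_cast
  have h3 : ∀ i ∈ (Finset.univ : Finset (Fin m)), (w i : ℝ) * ((z i : ℝ) - q * ∑ i, (z i : ℝ)) =
      (z i : ℝ) * w i - (q * ∑ i, (z i : ℝ)) * w i := by
    intro i _
    ring
  rw [Finset.sum_congr rfl h3, Finset.sum_sub_distrib, ← Finset.mul_sum]
  ring

theorem zero_of_orth98 {w : E} (hw : w ∈ Submodule.span ℝ (Φ : Set E)) (h : ∀ r ∈ Φ, (inner ℝ w r : ℝ) = 0) : w = 0 := by
  have h1 : ∀ u ∈ Submodule.span ℝ (Φ : Set E), (inner ℝ w u : ℝ) = 0 := by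
    intro u hu
    induction hu using Submodule.span_induction with
    | mem r hr => exact h r hr
    | zero => rw [inner_zero_right]
    | add x y _ _ hx hy => rw [inner_add_right, hx, hy, add_zero]
    | smul t x _ hx => rw [inner_smul_right, hx, mul_zero]
  exact inner_self_eq_zero.1 (h1 w hw)

/-- the general form, in coordinates -/
theorem falseV98 {K : ℕ} {u : Fin m → E} {q : ℝ} (h : DU Φ X a b c l y v)
    (hu : ∀ i j, inner ℝ (u i) (u j) = (if i = j then (1 : ℝ) else 0) - q) (f : Fin K → Fin m → ℤ)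
    (hf : ∀ k, vc u (f k) ∈ Φ)
    (ho : ∀ k k', k ≠ k' → ((∑ i, f k i * f k' i : ℤ) : ℝ) = q * ((∑ i, f k i : ℤ) * (∑ i, f k' i : ℤ)))
    (h0 : ∀ w : E, (∀ k, ∑ i, (f k i : ℝ) * inner ℝ w (u i) = 0) → ∀ r ∈ Φ, (inner ℝ w r : ℝ) = 0) : False := by
  classical
  refine h.false98 (Finset.univ.image fun k => vc u (f k)) ?_ ?_ ?_
  · intro r hr
    obtain ⟨k, -, rfl⟩ := Finset.mem_image.1 hr
    exact hf k
  · intro r hr s hs hrs
    obtain ⟨k, -, rfl⟩ := Finset.mem_image.1 hr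
    obtain ⟨k', -, rfl⟩ := Finset.mem_image.1 hs
    rw [inner_vc98 hu, ho k k' fun h => hrs (by rw [h]), sub_self]
  · intro w hw hw0
    refine zero_of_orth98 hw (h0 w fun k => ?_)
    rw [← inner_vc]
    exact hw0 _ (Finset.mem_image_of_mem _ (Finset.mem_univ k))

def fE7 : Fin 7 → Fin 8 → ℤ := ![![1,-1,0,0,0,0,0,0], ![0,0,1,-1,0,0,0,0], ![0,0,0,0,1,-1,0,0], ![0,0,0,0,0,0,1,-1],
  ![1,1,1,1,0,0,0,0], ![1,1,0,0,1,1,0,0], ![1,1,0,0,0,0,1,1]]

def fE8 : Fin 8 → Fin 9 → ℤ := ![![1,-1,0,0,0,0,0,0,0], ![0,0,1,-1,0,0,0,0,0], ![0,0,0,0,1,-1,0,0,0],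
  ![0,0,0,0,0,0,1,-1,0], ![1,1,0,0,0,0,0,0,1], ![0,0,1,1,0,0,0,0,1], ![0,0,0,0,1,1,0,0,1], ![0,0,0,0,0,0,1,1,1]]

def fG2 : Fin 2 → Fin 3 → ℤ := ![![1,-1,0], ![0,0,3]]

theorem oE7 : ∀ k k', k ≠ k' → 8 * (∑ i, fE7 k i * fE7 k' i) = (∑ i, fE7 k i) * (∑ i, fE7 k' i) := by decide +kernel
theorem oE8 : ∀ k k', k ≠ k' → 9 * (∑ i, fE8 k i * fE8 k' i) = (∑ i, fE8 k i) * (∑ i, fE8 k' i) := by decide +kernel
theorem oG2 : ∀ k k', k ≠ k' → 3 * (∑ i, fG2 k i * fG2 k' i) = (∑ i, fG2 k i) * (∑ i, fG2 k' i) := by decide +kernel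

theorem vc_sub98 (u : Fin m → E) {z : Fin m → ℤ} {i j : Fin m} (hij : i ≠ j)
    (hz : ∀ k, z k = (if k = i then 1 else 0) - (if k = j then 1 else 0)) : vc u z = u i - u j := by
  unfold vc
  have h1 : ∀ k ∈ (Finset.univ : Finset (Fin m)), ((z k : ℤ) : ℝ) • u k = (if k = i then u k else 0) - (if k = j then u k else 0) := by
    intro k _
    rw [hz k]
    push_cast
    split_ifs <;> simp
  rw [Finset.sum_congr rfl h1, Finset.sum_sub_distrib, Finset.sum_ite_eq', Finset.sum_ite_eq', if_pos (Finset.mem_univ _),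
    if_pos (Finset.mem_univ _)]

theorem vc_su98 (u : Fin m → E) {z : Fin m → ℤ} (S : Finset (Fin m)) (hz : ∀ k, z k = if k ∈ S then 1 else 0) :
    vc u z = ∑ i ∈ S, u i := by
  classical
  unfold vc
  have h1 : ∀ k ∈ (Finset.univ : Finset (Fin m)), ((z k : ℤ) : ℝ) • u k = if k ∈ S then u k else 0 := by
    intro k _
    rw [hz k]
    split_ifs <;> simp
  rw [Finset.sum_congr rfl h1, Finset.sum_ite_mem, Finset.univ_inter]

/-- type `E_7` -/
theorem typeE7U {u : Fin 8 → E} (h : DU Φ X a b c l y v) (F : LT.TyE7 Φ u) : False := by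
  have hu : ∀ i j, inner ℝ (u i) (u j) = (if i = j then (1 : ℝ) else 0) - 1 / 8 := F.gram
  have hu' : ∀ i j, inner ℝ (u i) (u j) = (if i = j then (1 : ℝ) else 0) - 1 / ((8 : ℕ) : ℝ) := by
    intro i j
    rw [hu]
    norm_num
  have hs : ∀ (k : Fin 7) (i j : Fin 8), i ≠ j → (∀ n, fE7 k n = (if n = i then 1 else 0) - (if n = j then 1 else 0)) →
      vc u (fE7 k) ∈ Φ := by
    intro k i j hij hz
    rw [vc_sub98 u hij hz]
    exact (F.mem _).2 (Or.inl ⟨i, j, hij, rfl⟩)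
  have ht : ∀ (k : Fin 7) (S : Finset (Fin 8)), S.card = 4 → (∀ n, fE7 k n = if n ∈ S then 1 else 0) →
      vc u (fE7 k) ∈ Φ := by
    intro k S hS hz
    rw [vc_su98 u S hz]
    exact (F.mem _).2 (Or.inr ⟨S, hS, rfl⟩)
  refine falseV98 h hu fE7 ?_ ?_ ?_
  · intro k
    fin_cases k
    · exact hs 0 0 1 (by decide) (by decide)
    · exact hs 1 2 3 (by decide) (by decide)
    · exact hs 2 4 5 (by decide) (by decide)
    · exact hs 3 6 7 (by decide) (by decide)
    · exact ht 4 {0, 1, 2, 3} (by decide) (by decide)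
    · exact ht 5 {0, 1, 4, 5} (by decide) (by decide)
    · exact ht 6 {0, 1, 6, 7} (by decide) (by decide)
  · intro k k' hk
    have h1 := oE7 k k' hk
    have h2 : ((8 * (∑ i, fE7 k i * fE7 k' i) : ℤ) : ℝ) = (((∑ i, fE7 k i) * (∑ i, fE7 k' i) : ℤ) : ℝ) := by rw [h1]
    rw [Int.cast_mul, Int.cast_mul] at h2
    rw [← h2]
    push_cast
    ring
  · intro w hk
    have hsum := sum_ax hu' (by norm_num) w
    rw [Fin.sum_univ_eight] at hsum
    have e0 := hk 0
    have e1 := hk 1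
    have e2 := hk 2
    have e3 := hk 3
    have e4 := hk 4
    have e5 := hk 5
    have e6 := hk 6
    simp [fE7, Fin.sum_univ_eight] at e0 e1 e2 e3 e4 e5 e6
    have hall : ∀ i, (inner ℝ w (u i) : ℝ) = 0 := by
      intro i
      fin_cases i <;> simp <;> linarith
    intro r hr
    rcases (F.mem r).1 hr with ⟨i, j, -, rfl⟩ | ⟨S, -, rfl⟩
    · rw [inner_sub_right, hall, hall, sub_zero]
    · rw [inner_sum]
      exact Finset.sum_eq_zero fun i _ => hall i

/-- type `E_8` -/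
theorem typeE8U {u : Fin 9 → E} (h : DU Φ X a b c l y v) (F : LT.TyE8 Φ u) : False := by
  have hu : ∀ i j, inner ℝ (u i) (u j) = (if i = j then (1 : ℝ) else 0) - 1 / 9 := F.gram
  have hu' : ∀ i j, inner ℝ (u i) (u j) = (if i = j then (1 : ℝ) else 0) - 1 / ((9 : ℕ) : ℝ) := by
    intro i j
    rw [hu]
    norm_num
  have hs : ∀ (k : Fin 8) (i j : Fin 9), i ≠ j → (∀ n, fE8 k n = (if n = i then 1 else 0) - (if n = j then 1 else 0)) →
      vc u (fE8 k) ∈ Φ := by
    intro k i j hij hz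
    rw [vc_sub98 u hij hz]
    exact (F.mem _).2 (Or.inl ⟨i, j, hij, rfl⟩)
  have ht : ∀ (k : Fin 8) (S : Finset (Fin 9)), S.card = 3 → (∀ n, fE8 k n = if n ∈ S then 1 else 0) →
      vc u (fE8 k) ∈ Φ := by
    intro k S hS hz
    rw [vc_su98 u S hz]
    exact (F.mem _).2 (Or.inr ⟨S, hS, Or.inl rfl⟩)
  refine falseV98 h hu fE8 ?_ ?_ ?_
  · intro k
    fin_cases k
    · exact hs 0 0 1 (by decide) (by decide)
    · exact hs 1 2 3 (by decide) (by decide)
    · exact hs 2 4 5 (by decide) (by decide)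
    · exact hs 3 6 7 (by decide) (by decide)
    · exact ht 4 {0, 1, 8} (by decide) (by decide)
    · exact ht 5 {2, 3, 8} (by decide) (by decide)
    · exact ht 6 {4, 5, 8} (by decide) (by decide)
    · exact ht 7 {6, 7, 8} (by decide) (by decide)
  · intro k k' hk
    have h1 := oE8 k k' hk
    have h2 : ((9 * (∑ i, fE8 k i * fE8 k' i) : ℤ) : ℝ) = (((∑ i, fE8 k i) * (∑ i, fE8 k' i) : ℤ) : ℝ) := by rw [h1]
    rw [Int.cast_mul, Int.cast_mul] at h2
    rw [← h2]
    push_cast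
    ring
  · intro w hk
    have hsum := sum_ax hu' (by norm_num) w
    simp only [Fin.sum_univ_succ, Fin.sum_univ_zero, add_zero] at hsum
    have e0 := hk 0
    have e1 := hk 1
    have e2 := hk 2
    have e3 := hk 3
    have e4 := hk 4
    have e5 := hk 5
    have e6 := hk 6
    have e7 := hk 7
    simp [fE8, Fin.sum_univ_succ] at e0 e1 e2 e3 e4 e5 e6 e7 hsum
    have hall : ∀ i, (inner ℝ w (u i) : ℝ) = 0 := by
      intro i
      fin_cases i <;> simp <;> linarith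
    intro r hr
    rcases (F.mem r).1 hr with ⟨i, j, -, rfl⟩ | ⟨S, -, rfl | rfl⟩
    · rw [inner_sub_right, hall, hall, sub_zero]
    · rw [inner_sum]
      exact Finset.sum_eq_zero fun i _ => hall i
    · rw [inner_neg_right, inner_sum, Finset.sum_eq_zero fun i _ => hall i, neg_zero]

/-- type `G_2` -/
theorem typeG2U {u : Fin 3 → E} (h : DU Φ X a b c l y v) (F : LT.TyG2 Φ u) : False := by
  have hu : ∀ i j, inner ℝ (u i) (u j) = (if i = j then (1 : ℝ) else 0) - 1 / 3 := F.gram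
  have hu' : ∀ i j, inner ℝ (u i) (u j) = (if i = j then (1 : ℝ) else 0) - 1 / ((3 : ℕ) : ℝ) := by
    intro i j
    rw [hu]
    norm_num
  refine falseV98 h hu fG2 ?_ ?_ ?_
  · intro k
    fin_cases k
    · show vc u (fG2 0) ∈ Φ
      rw [vc_sub98 u (i := 0) (j := 1) (by decide) (by decide)]
      exact (F.mem _).2 (Or.inl ⟨0, 1, by decide, rfl⟩)
    · show vc u (fG2 1) ∈ Φ
      have : vc u (fG2 1) = (3 : ℝ) • u 2 := by
        simp [vc, fG2, Fin.sum_univ_three]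
      rw [this]
      exact (F.mem _).2 (Or.inr ⟨2, Or.inl rfl⟩)
  · intro k k' hk
    have h1 := oG2 k k' hk
    have h2 : ((3 * (∑ i, fG2 k i * fG2 k' i) : ℤ) : ℝ) = (((∑ i, fG2 k i) * (∑ i, fG2 k' i) : ℤ) : ℝ) := by rw [h1]
    rw [Int.cast_mul, Int.cast_mul] at h2
    rw [← h2]
    push_cast
    ring
  · intro w hk
    have hsum := sum_ax hu' (by norm_num) w
    rw [Fin.sum_univ_three] at hsum
    have e0 := hk 0
    have e1 := hk 1
    simp [fG2, Fin.sum_univ_three] at e0 e1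
    have hall : ∀ i, (inner ℝ w (u i) : ℝ) = 0 := by
      intro i
      fin_cases i <;> simp <;> linarith
    intro r hr
    rcases (F.mem r).1 hr with ⟨i, j, -, rfl⟩ | ⟨i, rfl | rfl⟩
    · rw [inner_sub_right, hall, hall, sub_zero]
    · rw [inner_smul_right, hall, mul_zero]
    · rw [inner_neg_right, inner_smul_right, hall, mul_zero, neg_zero]

end L2
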